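import Mathlib

namespace Pool.Agent.Results.MP_cb5b52_nt.Q1

open Filter Topology Finset

/-- Number of tuples `c` of naturals with `∑ c i * a i = n`, using the first `k` terms of `a`. -/
noncomputable def pc (a : ℕ → ℕ) (n k : ℕ) : ℕ := Nat.card {c : Fin k → ℕ // ∑ i, c i * a i = n}

/-- `d` is the odd density of `pc a · k`. -/
def Dens (a : ℕ → ℕ) (k : ℕ) (d : ℝ) : Prop :=
  Tendsto (fun N : ℕ => (Nat.card {n // n ≤ N ∧ Odd (pc a n k)} : ℝ) / N) atTop (𝓝 d)

lemma four (j n : ℕ) (h : Odd (pc (fun i => i / 4 + 1) n (j * 4))) : 4 ∣ n := by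
  classical
  let T := {c : Fin j × Fin 4 → ℕ // ∑ p, c p * (p.1 + 1) = n}
  have e : pc (fun i => i / 4 + 1) n (j * 4) = Nat.card T := by
    refine Nat.card_congr ((finProdFinEquiv.arrowCongr (.refl ℕ)).symm.subtypeEquiv fun c => ?_)
    rw [← finProdFinEquiv.sum_comp]
    refine Eq.congr_left (sum_congr rfl fun p _ => ?_)
    have : (p.2 + 4 * p.1 : ℕ) / 4 = p.1 := by omega
    simp [this]
  have : Finite T := Nat.finite_of_card_ne_zero (by rw [← e]; exact h.pos.ne')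
  have := Fintype.ofFinite T
  let s : Fin j × Fin 4 ≃ Fin j × Fin 4 := (Equiv.refl _).prodCongr (Equiv.addRight 1)
  let f : Function.End T := fun c => ⟨c.1 ∘ s, (s.sum_comp fun p => c.1 p * (p.1 + 1)).trans c.2⟩
  have : Fact (Nat.Prime 2) := ⟨Nat.prime_two⟩
  have m := Equiv.Perm.card_fixedPoints_modEq (f := f) (p := 2) (n := 2) (by
    funext c; ext ⟨a, b⟩
    have : b + 1 + 1 + 1 + 1 = b := by revert b; decide
    exact congrArg (fun x => c.1 (a, x)) this)
  rw [e, Nat.card_eq_fintype_card, Nat.odd_iff, m] at h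
  obtain ⟨⟨c, hc⟩⟩ := Fintype.card_pos_iff.1 (show 0 < Fintype.card f.fixedPoints by omega)
  have q (a b) : c.1 (a, b + 1) = c.1 (a, b) := congrFun (congrArg Subtype.val hc) (a, b)
  rw [← c.2, Fintype.sum_prod_type]
  refine dvd_sum fun a _ => ⟨c.1 (a, 0) * (a + 1), ?_⟩
  have q1 : c.1 (a, 1) = _ := q a 0
  have q2 : c.1 (a, 2) = _ := q a 1
  have q3 : c.1 (a, 3) = _ := q a 2
  simp only [Fin.sum_univ_four, q3, q2, q1]; ring

theorem result : ∃ a : ℕ → ℕ, (∀ i, 0 < a i) ∧ (∀ g, (∀ i, g ∣ a i) → g = 1) ∧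
    {p | p.Prime ∧ ∃ i, p ∣ a i}.Infinite ∧ (∀ j d, Dens a (j * 4) d → d ≤ 1 / 4) ∧
    ¬ ∃ δ : ℕ → ℝ, (∀ k ≥ 1, Dens a k (δ k)) ∧ Tendsto δ atTop (𝓝 (1 / 2)) := by
  have key (j d) (h : Dens (fun i => i / 4 + 1) (j * 4) d) : d ≤ 1 / 4 := by
    have t : Tendsto (fun N : ℕ => (1 / 4 + 1 / N : ℝ)) atTop (𝓝 (1 / 4)) := by
      simpa using tendsto_one_div_atTop_nhds_zero_nat.const_add (1 / 4 : ℝ)
    refine le_of_tendsto_of_tendsto h t ((eventually_gt_atTop 0).mono fun N N0 => ?_)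
    have : Nat.card {n // n ≤ N ∧ Odd (pc (fun i => i / 4 + 1) n (j * 4))} ≤ N / 4 + 1 := by
      refine (Nat.card_le_card_of_injective (β := Fin (N / 4 + 1))
        (fun n => ⟨n.1 / 4, by have := n.2.1; omega⟩) fun a b h => Subtype.ext ?_).trans (by simp)
      have := four _ _ a.2.2; have := four _ _ b.2.2
      simp at h; omega
    have N1 : (0 : ℝ) < N := by exact_mod_cast N0
    have c : ((N / 4 : ℕ) : ℝ) ≤ N / 4 := Nat.cast_div_le
    have := (Nat.cast_le (α := ℝ)).2 this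
    push_cast at this
    rw [div_le_iff₀ N1, add_mul, one_div_mul_cancel N1.ne']
    linarith
  refine ⟨fun i => i / 4 + 1, fun i => Nat.succ_pos _, fun g h => by simpa using h 0,
    Nat.infinite_setOf_prime.mono fun p hp => ⟨hp, 4 * (p - 1), ?_⟩, key, fun ⟨δ, a, b⟩ => ?_⟩
  · have := Nat.Prime.pos hp
    show p ∣ 4 * (p - 1) / 4 + 1
    rw [show 4 * (p - 1) / 4 + 1 = p by omega]
  · have := le_of_tendsto (b.comp (tendsto_id.atTop_mul_const' (by norm_num : 0 < 4)))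
      ((eventually_ge_atTop 1).mono fun j hj => key j _ (a _ (by simp; omega)))
    norm_num at this

end Pool.Agent.Results.MP_cb5b52_nt.Q1
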